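import Mathlib
import Pool.Agent.Lib.MP_4006b4_co.Basic

/-!
# Induction set-up and the extension lemmas
-/

open Finset

namespace Pool.Agent.Lib.MP_4006b4_co

/-- Number of edges (ordered). -/
def hc (G : Str) : ℕ := ∑ v ∈ G.V, ∑ w ∈ G.V, G.h v w

/-- Number of links (ordered). -/
def mc (G : Str) : ℕ := ∑ v ∈ G.V, ∑ w ∈ G.V, G.m v w

/-- The order used for the induction. -/
def Less (G' G : Str) : Prop :=
  hc G' < hc G ∨ (hc G' ≤ hc G ∧ (#G'.V < #G.V ∨ (#G'.V ≤ #G.V ∧ mc G' < mc G)))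

theorem less_wf : WellFounded Less := by
  have h : WellFounded (Prod.Lex (fun a b : ℕ => a < b)
      (Prod.Lex (fun a b : ℕ => a < b) (fun a b : ℕ => a < b))) :=
    (Prod.instWellFoundedRelation (ha := ⟨_, Nat.lt_wfRel.wf⟩)
      (hb := Prod.instWellFoundedRelation (ha := ⟨_, Nat.lt_wfRel.wf⟩)
        (hb := ⟨_, Nat.lt_wfRel.wf⟩))).wf
  refine Subrelation.wf (r := InvImage _ (fun G : Str => (hc G, (#G.V, mc G)))) ?_
    (InvImage.wf _ h)
  intro G' G hl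
  simp only [InvImage, Prod.lex_def]
  unfold Less at hl
  omega

/-- A minimal counterexample. -/
structure MinCE (a b : ℕ) (G : Str) : Prop where
  wf : G.WF a b
  pos : ∀ S ⊆ G.V, S.Nonempty → -(b : ℤ) + 1 ≤ rho a b G S
  nc : ¬ Colorable G
  ih : ∀ G' : Str, G'.WF a b → (∀ S ⊆ G'.V, S.Nonempty → -(b : ℤ) + 1 ≤ rho a b G' S) →
    Less G' G → Colorable G'

/-- Numerical conditions on the parameters. -/
structure Par (a b : ℕ) : Prop where
  b3 : 3 ≤ b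
  ab : b + 2 ≤ a
  hk : 3 * b ≤ 2 * a
  hu : 2 * a + 3 * b ≤ a * b

/-- Lowering a threshold by one at `u`. -/
def dec (f : ℕ → ℕ) (u : ℕ) : ℕ → ℕ := fun v => if v = u then f v - 1 else f v

theorem dec_self (f : ℕ → ℕ) (u : ℕ) : dec f u u = f u - 1 := by simp [dec]

theorem dec_ne (f : ℕ → ℕ) {u v : ℕ} (h : v ≠ u) : dec f u v = f v := by simp [dec, h]

theorem dec_le (f : ℕ → ℕ) (u v : ℕ) : dec f u v ≤ f v := by
  unfold dec
  split_ifs
  · exact Nat.sub_le _ _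
  · exact le_rfl

theorem sum_dec {f : ℕ → ℕ} {u : ℕ} (h : 1 ≤ f u) (S : Finset ℕ) (c : ℤ) :
    ∑ v ∈ S, c * ((f v : ℤ) - dec f u v) = if u ∈ S then c else 0 := by
  have e : ∀ v ∈ S, c * ((f v : ℤ) - dec f u v) = if v = u then c else 0 := by
    intro v _
    by_cases hv : v = u
    · subst hv
      rw [dec_self, if_pos rfl]
      push_cast [h]
      ring
    · rw [dec_ne f hv, if_neg hv]
      ring
  rw [sum_congr rfl e]
  simp

theorem sum_dec_le {f : ℕ → ℕ} {u : ℕ} (S : Finset ℕ) {c : ℤ} (hc : 0 ≤ c) :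
    ∑ v ∈ S, c * ((f v : ℤ) - dec f u v) ≤ if u ∈ S then c else 0 := by
  by_cases h : 1 ≤ f u
  · rw [sum_dec h]
  · have h0 : f u = 0 := by omega
    have e : ∀ v ∈ S, c * ((f v : ℤ) - dec f u v) = 0 := by
      intro v _
      by_cases hv : v = u
      · subst hv
        rw [dec_self, h0]
        simp
      · rw [dec_ne f hv]
        ring
    rw [sum_eq_zero e]
    split_ifs
    · exact hc
    · exact le_rfl

/-- The structure on `T` with new thresholds. -/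
def Str.sub (G : Str) (T : Finset ℕ) (t s : ℕ → ℕ) : Str := ⟨T, G.h, G.m, t, s⟩

section

variable {a b : ℕ} {G : Str}

theorem rho_thr {G G' : Str} (hh : G'.h = G.h) (hm : G'.m = G.m) (S : Finset ℕ) :
    rho a b G' S = rho a b G S - (∑ v ∈ S, (a : ℤ) * ((G.t v : ℤ) - G'.t v))
      - ∑ v ∈ S, (b : ℤ) * ((G.s v : ℤ) - G'.s v) := by
  have e : inner a b G' S = inner a b G S := by
    unfold inner wt
    rw [hh, hm]
  unfold rho
  rw [e]
  have : ∑ v ∈ S, rv a b G' v = ∑ v ∈ S, rv a b G v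
      - (∑ v ∈ S, (a : ℤ) * ((G.t v : ℤ) - G'.t v))
      - ∑ v ∈ S, (b : ℤ) * ((G.s v : ℤ) - G'.s v) := by
    rw [← sum_sub_distrib, ← sum_sub_distrib]
    refine sum_congr rfl fun v _ => ?_
    unfold rv
    ring
  rw [this]
  ring

theorem hc_mono {G G' : Str} (hV : G'.V ⊆ G.V)
    (hh : ∀ v ∈ G'.V, ∀ w ∈ G'.V, G'.h v w ≤ G.h v w) : hc G' ≤ hc G := by
  unfold hc
  calc ∑ v ∈ G'.V, ∑ w ∈ G'.V, G'.h v w ≤ ∑ v ∈ G'.V, ∑ w ∈ G'.V, G.h v w :=
        sum_le_sum fun v hv => sum_le_sum fun w hw => hh v hv w hw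
    _ ≤ ∑ v ∈ G'.V, ∑ w ∈ G.V, G.h v w :=
        sum_le_sum fun v _ => sum_le_sum_of_subset hV
    _ ≤ ∑ v ∈ G.V, ∑ w ∈ G.V, G.h v w := sum_le_sum_of_subset hV

theorem MinCE.ihc (M : MinCE a b G) {G' : Str} (wf' : G'.WF a b) (hl : Less G' G)
    (hn : ¬ Colorable G') : ∃ S ⊆ G'.V, S.Nonempty ∧ rho a b G' S ≤ -(b : ℤ) := by
  by_contra hcon
  push Not at hcon
  exact hn (M.ih G' wf' (fun S hS hne => by have := hcon S hS hne; omega) hl)

theorem sub_wf (wf : G.WF a b) {T : Finset ℕ} (hT : T ⊆ G.V) {t s : ℕ → ℕ}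
    (ht : ∀ v, t v ≤ G.t v) (hs : ∀ v, s v ≤ G.s v) : (G.sub T t s).WF a b where
  hsymm := wf.hsymm
  msymm := wf.msymm
  hirr := wf.hirr
  mirr := wf.mirr
  hle := wf.hle
  tb := fun v hv w hw h => (Nat.add_le_add_right (ht v) 1).trans
    (wf.tb v (hT hv) w (hT hw) h)
  sb := fun v hv w hw h => (Nat.add_le_add_right (hs v) 1).trans
    (wf.sb v (hT hv) w (hT hw) h)

theorem MinCE.sub (M : MinCE a b G) {T : Finset ℕ} (hT : T ⊆ G.V) (hTV : T ≠ G.V) {t s : ℕ → ℕ}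
    (ht : ∀ v, t v ≤ G.t v) (hs : ∀ v, s v ≤ G.s v) (hn : ¬ Colorable (G.sub T t s)) :
    ∃ S ⊆ T, S.Nonempty ∧ rho a b G S - (∑ v ∈ S, (a : ℤ) * ((G.t v : ℤ) - t v))
      - (∑ v ∈ S, (b : ℤ) * ((G.s v : ℤ) - s v)) ≤ -(b : ℤ) := by
  obtain ⟨S, hS, hne, hr⟩ := M.ihc (sub_wf M.wf hT ht hs)
    (Or.inr ⟨hc_mono hT fun v _ w _ => le_rfl,
      Or.inl (card_lt_card ((ssubset_iff_subset_ne).2 ⟨hT, hTV⟩))⟩) hn
  refine ⟨S, hS, hne, ?_⟩
  have h1 := rho_thr (a := a) (b := b) (G := G) (G' := G.sub T t s) rfl rfl S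
  rw [h1] at hr
  exact hr

theorem MinCE.colres (M : MinCE a b G) {T : Finset ℕ} (hT : T ⊆ G.V) (hTV : T ≠ G.V) :
    Colorable (G.res T) := by
  by_contra hn
  obtain ⟨S, hS, hne, hr⟩ := M.sub hT hTV (fun v => le_rfl) (fun v => le_rfl) hn
  have := M.pos S (hS.trans hT) hne
  simp only [sub_self, mul_zero, sum_const_zero, sub_zero] at hr
  omega

theorem MinCE.ext (M : MinCE a b G) {T : Finset ℕ} (hT : T ⊆ G.V) (hTne : T.Nonempty)
    {x : ℕ → Bool} {A : ℕ → ℕ → ℕ} (hcol : IsCol (G.res T) x A) :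
    ∃ S ⊆ G.V \ T, S.Nonempty ∧
      rho a b G (T ∪ S) + ((a : ℤ) - b) * (n1 G x T S : ℤ) ≤ rho a b G T - b := by
  have hn : ¬ Colorable (G.ctr T x) := by
    rintro ⟨y, B, hy⟩
    obtain ⟨x', A', h, _⟩ := comb M.wf hT hcol hy
    exact M.nc ⟨x', A', h⟩
  have hcard : #(G.V \ T) < #G.V := by
    refine card_lt_card ⟨sdiff_subset, fun h => ?_⟩
    obtain ⟨v, hv⟩ := hTne
    exact (mem_sdiff.1 (h (hT hv))).2 hv
  obtain ⟨S, hS, hne, hr⟩ := M.ihc (ctr_wf M.wf T x)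
    (Or.inr ⟨hc_mono sdiff_subset fun v _ w _ => le_rfl, Or.inl hcard⟩) hn
  refine ⟨S, hS, hne, ?_⟩
  have h1 := ctr_rho M.wf hT x (hS.trans sdiff_subset)
  have h2 : Disjoint T S := disjoint_left.2 fun v hv hvS => (mem_sdiff.1 (hS hvS)).2 hv
  rw [rho_union M.wf h2]
  linarith

end

end Pool.Agent.Lib.MP_4006b4_co
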