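import Mathlib
import Pool.Agent.Lib.MP_4006b4_co.Red

/-!
# Replacing the inside of a small set
-/

open Finset

namespace Pool.Agent.Lib.MP_4006b4_co

/-- The link pattern inside the boundary: a star centred at `d0` on the set `D`. -/
def star (D : ℕ → Prop) [DecidablePred D] (d0 v w : ℕ) : ℕ :=
  if (v = d0 ∧ w ≠ d0 ∧ D w) ∨ (w = d0 ∧ v ≠ d0 ∧ D v) then 1 else 0

theorem star_symm (D : ℕ → Prop) [DecidablePred D] (d0 v w : ℕ) :
    star D d0 v w = star D d0 w v := by
  unfold star
  by_cases h : (v = d0 ∧ w ≠ d0 ∧ D w) ∨ (w = d0 ∧ v ≠ d0 ∧ D v)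
  · rw [if_pos h, if_pos (by tauto)]
  · rw [if_neg h, if_neg (by tauto)]

/-- The replacement structure. -/
def Str.repl (G : Str) (T Bd : Finset ℕ) (x x' : ℕ → Bool) (d0 : ℕ) : Str where
  V := (G.V \ T) ∪ Bd
  h := fun v w => if v ∈ T ∧ w ∈ T then 0 else G.h v w
  m := fun v w => if v ∈ T ∧ w ∈ T then
      star (fun u => x' u = true ∧ x u = false) d0 v w else G.m v w
  t := fun v => if v ∈ T then (if x' v then 1 else 0) else G.t v
  s := fun v => if v ∈ T then (if x v then 0 else 1) else G.s v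

section

variable {a b : ℕ} {G : Str}

theorem repl_wf (wf : G.WF a b) (ha : 2 ≤ a) (hb : 2 ≤ b) {T Bd : Finset ℕ} (hT : T ⊆ G.V)
    (hBd : Bd ⊆ T) (x x' : ℕ → Bool) (d0 : ℕ) : (G.repl T Bd x x' d0).WF a b := by
  have hV : ∀ v ∈ (G.repl T Bd x x' d0).V, v ∈ G.V := by
    intro v hv
    rcases mem_union.1 hv with h | h
    · exact (mem_sdiff.1 h).1
    · exact hT (hBd h)
  refine ⟨?_, ?_, ?_, ?_, ?_, ?_, ?_⟩
  · intro v w
    show (if v ∈ T ∧ w ∈ T then 0 else G.h v w) = (if w ∈ T ∧ v ∈ T then 0 else G.h w v)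
    rw [wf.hsymm v w]
    by_cases h : v ∈ T ∧ w ∈ T
    · rw [if_pos h, if_pos h.symm]
    · rw [if_neg h, if_neg (fun hh => h hh.symm)]
  · intro v w
    show (if v ∈ T ∧ w ∈ T then star _ d0 v w else G.m v w)
      = (if w ∈ T ∧ v ∈ T then star _ d0 w v else G.m w v)
    rw [wf.msymm v w, star_symm]
    by_cases h : v ∈ T ∧ w ∈ T
    · rw [if_pos h, if_pos h.symm]
    · rw [if_neg h, if_neg (fun hh => h hh.symm)]
  · intro v
    show (if v ∈ T ∧ v ∈ T then 0 else G.h v v) = 0
    rw [wf.hirr]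
    split_ifs <;> rfl
  · intro v
    show (if v ∈ T ∧ v ∈ T then star _ d0 v v else G.m v v) = 0
    rw [wf.mirr]
    unfold star
    split_ifs with h1 h2
    · exfalso
      rcases h2 with ⟨h, h', _⟩ | ⟨h, h', _⟩ <;> exact h' h
    · rfl
    · rfl
  · intro v w
    show (if v ∈ T ∧ w ∈ T then 0 else G.h v w) ≤ 1
    split_ifs
    · omega
    · exact wf.hle v w
  · intro v hv w hw h
    have h1 : ¬ (v ∈ T ∧ w ∈ T) := fun hh => h (if_pos hh)
    have h2 : (G.repl T Bd x x' d0).h v w = G.h v w := if_neg h1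
    rw [h2] at h
    show (if v ∈ T then (if x' v then 1 else 0) else G.t v) + 1 ≤ b
    split_ifs
    · omega
    · omega
    · exact wf.tb v (hV v hv) w (hV w hw) h
  · intro v hv w hw h
    have h1 : ¬ (v ∈ T ∧ w ∈ T) := fun hh => h (if_pos hh)
    have h2 : (G.repl T Bd x x' d0).h v w = G.h v w := if_neg h1
    rw [h2] at h
    show (if v ∈ T then (if x v then 0 else 1) else G.s v) + 1 ≤ a
    split_ifs
    · omega
    · omega
    · exact wf.sb v (hV v hv) w (hV w hw) h

/-- Colouring transfer. -/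
theorem repl_col (wf : G.WF a b) {T Bd : Finset ℕ} (hT : T ⊆ G.V) (hBd : Bd ⊆ T)
    (hbd : ∀ v ∈ T, v ∉ Bd → ∀ r ∈ G.V \ T, G.h v r = 0 ∧ G.m v r = 0)
    {x x' : ℕ → Bool} {A A' : ℕ → ℕ → ℕ} (hx : IsCol (G.res T) x A)
    (hx' : IsCol (G.res T) x' A') {d0 : ℕ} (hd0 : d0 ∈ Bd)
    (hc : Colorable (G.repl T Bd x x' d0)) : Colorable G := by
  classical
  obtain ⟨y, B, hy⟩ := hc
  have hVs : (G.repl T Bd x x' d0).V = (G.V \ T) ∪ Bd := rfl
  have hBdV : ∀ v ∈ Bd, v ∈ (G.repl T Bd x x' d0).V := fun v hv => mem_union_right _ hv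
  have hOV : ∀ v ∈ G.V \ T, v ∈ (G.repl T Bd x x' d0).V := fun v hv => mem_union_left _ hv
  have hdis : Disjoint (G.V \ T) Bd := disjoint_left.2 fun v hv hvb => (mem_sdiff.1 hv).2 (hBd hvb)
  -- loads on the boundary vanish
  have hload0 : ∀ v ∈ Bd, load (G.repl T Bd x x' d0) y B (G.repl T Bd x x' d0).V v = 0 := by
    intro v hv
    have h1 := hy.cap v (hBdV v hv)
    have h2 : thr (G.repl T Bd x x' d0) (y v) v ≤ 1 := by
      unfold thr
      show (if (y v) = true then (if v ∈ T then (if x' v then 1 else 0) else G.t v)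
        else (if v ∈ T then (if x v then 0 else 1) else G.s v)) ≤ 1
      rw [if_pos (hBd hv), if_pos (hBd hv)]
      split_ifs <;> omega
    omega
  have hterm0 : ∀ v ∈ Bd, ∀ w ∈ (G.repl T Bd x x' d0).V,
      (if y v = y w then (G.repl T Bd x x' d0).h v w else 0) = 0 ∧ B v w = 0 := by
    intro v hv w hw
    have h1 := hload0 v hv
    unfold load at h1
    rw [sum_eq_zero_iff] at h1
    have := h1 w hw
    exact ⟨by omega, by omega⟩
  -- the state of the boundary
  have hyT : ∀ v ∈ Bd, x v = true → y v = true := by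
    intro v hv hxv
    by_contra hne
    have hyv : y v = false := by simpa using hne
    have h1 := hy.cap v (hBdV v hv)
    rw [hyv, thr_false] at h1
    have : (G.repl T Bd x x' d0).s v = 0 := by
      show (if v ∈ T then (if x v then 0 else 1) else G.s v) = 0
      rw [if_pos (hBd hv), hxv]
      rfl
    omega
  have hyF : ∀ v ∈ Bd, x' v = false → y v = false := by
    intro v hv hxv
    by_contra hne
    have hyv : y v = true := by simpa using hne
    have h1 := hy.cap v (hBdV v hv)
    rw [hyv, thr_true] at h1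
    have : (G.repl T Bd x x' d0).t v = 0 := by
      show (if v ∈ T then (if x' v then 1 else 0) else G.t v) = 0
      rw [if_pos (hBd hv), hxv]
      rfl
    omega
  have hyD : ∀ v ∈ Bd, x' v = true → x v = false → y v = y d0 := by
    intro v hv h1 h2
    by_contra hne
    have hvd : v ≠ d0 := fun h => hne (by rw [h])
    have h3 := hy.cov v (hBdV v hv) d0 (hBdV d0 hd0) hne
    have h4 := (hterm0 v hv d0 (hBdV d0 hd0)).2
    have h5 := (hterm0 d0 hd0 v (hBdV v hv)).2
    have h6 : (G.repl T Bd x x' d0).m v d0 = 1 := by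
      show (if v ∈ T ∧ d0 ∈ T then star (fun u => x' u = true ∧ x u = false) d0 v d0
        else G.m v d0) = 1
      rw [if_pos ⟨hBd hv, hBd hd0⟩]
      unfold star
      rw [if_pos (Or.inr ⟨rfl, hvd, h1, h2⟩)]
    omega
  -- the colouring of `T` that we use
  obtain ⟨z, C, hz, hzy⟩ : ∃ z C, IsCol (G.res T) z C ∧ ∀ v ∈ Bd, z v = y v := by
    cases hyd : y d0
    · refine ⟨x, A, hx, ?_⟩
      intro v hv
      cases hxv : x v
      · cases hxv' : x' v
        · exact (hyF v hv hxv').symm
        · rw [hyD v hv hxv' hxv, hyd]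
      · exact (hyT v hv hxv).symm
    · refine ⟨x', A', hx', ?_⟩
      intro v hv
      cases hxv' : x' v
      · exact (hyF v hv hxv').symm
      · cases hxv : x v
        · rw [hyD v hv hxv' hxv, hyd]
        · exact (hyT v hv hxv).symm
  let z' : ℕ → Bool := fun v => if v ∈ T then z v else y v
  let C' : ℕ → ℕ → ℕ := fun v w =>
    if v ∈ T then (if w ∈ T then C v w else 0)
    else (if w ∈ T then (if w ∈ Bd then B v w else 0) else B v w)
  have hz'T : ∀ v ∈ T, z' v = z v := fun v hv => by simp [z', hv]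
  have hz'R : ∀ v, v ∉ T → z' v = y v := fun v hv => by simp [z', hv]
  have hz'B : ∀ v ∈ Bd, z' v = y v := fun v hv => by rw [hz'T v (hBd hv), hzy v hv]
  have hhBR : ∀ v ∈ Bd, ∀ w ∈ G.V \ T, z' v = z' w → G.h v w = 0 := by
    intro v hv w hw heq
    have h1 := (hterm0 v hv w (hOV w hw)).1
    rw [hz'B v hv, hz'R w (mem_sdiff.1 hw).2] at heq
    rw [if_pos heq] at h1
    have h2 : (G.repl T Bd x x' d0).h v w = G.h v w :=
      if_neg (fun hh => (mem_sdiff.1 hw).2 hh.2)
    rw [h2] at h1
    exact h1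
  have hhTR : ∀ v ∈ T, ∀ w ∈ G.V \ T, z' v = z' w → G.h v w = 0 := by
    intro v hv w hw heq
    by_cases hvB : v ∈ Bd
    · exact hhBR v hvB w hw heq
    · exact (hbd v hv hvB w hw).1
  refine ⟨z', C', ?_, ?_⟩
  · intro v hv w hw hne
    by_cases hvT : v ∈ T
    · by_cases hwT : w ∈ T
      · have h1 : C' v w = C v w := by simp [C', hvT, hwT]
        have h2 : C' w v = C w v := by simp [C', hvT, hwT]
        rw [h1, h2]
        rw [hz'T v hvT, hz'T w hwT] at hne
        exact hz.cov v hvT w hwT hne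
      · have hwR : w ∈ G.V \ T := mem_sdiff.2 ⟨hw, hwT⟩
        by_cases hvB : v ∈ Bd
        · have h2 : C' w v = B w v := by simp [C', hvT, hwT, hvB]
          rw [hz'B v hvB, hz'R w hwT] at hne
          have h3 := hy.cov v (hBdV v hvB) w (hOV w hwR) hne
          have h4 := (hterm0 v hvB w (hOV w hwR)).2
          have h5 : (G.repl T Bd x x' d0).m v w = G.m v w := if_neg (fun hh => hwT hh.2)
          omega
        · rw [(hbd v hvT hvB w hwR).2]
          exact Nat.zero_le _
    · have hvR : v ∈ G.V \ T := mem_sdiff.2 ⟨hv, hvT⟩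
      by_cases hwT : w ∈ T
      · by_cases hwB : w ∈ Bd
        · have h2 : C' v w = B v w := by simp [C', hvT, hwT, hwB]
          rw [hz'B w hwB, hz'R v hvT] at hne
          have h3 := hy.cov v (hOV v hvR) w (hBdV w hwB) hne
          have h4 := (hterm0 w hwB v (hOV v hvR)).2
          have h5 : (G.repl T Bd x x' d0).m v w = G.m v w := if_neg (fun hh => hvT hh.1)
          omega
        · rw [wf.msymm v w, (hbd w hwT hwB v hvR).2]
          exact Nat.zero_le _
      · have hwR : w ∈ G.V \ T := mem_sdiff.2 ⟨hw, hwT⟩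
        have h1 : C' v w = B v w := by simp [C', hvT, hwT]
        have h2 : C' w v = B w v := by simp [C', hvT, hwT]
        rw [h1, h2]
        rw [hz'R v hvT, hz'R w hwT] at hne
        have h3 := hy.cov v (hOV v hvR) w (hOV w hwR) hne
        have h5 : (G.repl T Bd x x' d0).m v w = G.m v w := if_neg (fun hh => hwT hh.2)
        omega
  · intro v hv
    by_cases hvT : v ∈ T
    · have h1 := hz.cap v hvT
      have hV1 : (G.res T).V = T := rfl
      rw [hV1] at h1
      have h2 : load G z' C' G.V v = load G z C T v := by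
        unfold load
        rw [← sum_sdiff hT]
        have e1 : ∑ w ∈ G.V \ T, ((if z' v = z' w then G.h v w else 0) + C' v w) = 0 := by
          refine sum_eq_zero fun w hw => ?_
          have hwT : w ∉ T := (mem_sdiff.1 hw).2
          have hA : C' v w = 0 := by simp [C', hvT, hwT]
          rw [hA, add_zero]
          split_ifs with h
          · exact hhTR v hvT w hw h
          · rfl
        rw [e1, zero_add]
        refine sum_congr rfl fun w hw => ?_
        have hA : C' v w = C v w := by simp [C', hvT, hw]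
        rw [hA, hz'T v hvT, hz'T w hw]
      rw [h2, hz'T v hvT]
      exact h1
    · have hvR : v ∈ G.V \ T := mem_sdiff.2 ⟨hv, hvT⟩
      have h1 := hy.cap v (hOV v hvR)
      rw [hVs] at h1
      have h3 : thr (G.repl T Bd x x' d0) (y v) v = thr G (y v) v := by
        unfold thr
        show (if (y v) = true then (if v ∈ T then (if x' v then 1 else 0) else G.t v)
          else (if v ∈ T then (if x v then 0 else 1) else G.s v)) = _
        rw [if_neg hvT, if_neg hvT]
      rw [h3] at h1
      have h2 : load G z' C' G.V v = load (G.repl T Bd x x' d0) y B ((G.V \ T) ∪ Bd) v := by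
        unfold load
        rw [← sum_sdiff hT, sum_union hdis]
        congr 1
        · refine sum_congr rfl fun w hw => ?_
          have hwT : w ∉ T := (mem_sdiff.1 hw).2
          have hA : C' v w = B v w := by simp [C', hvT, hwT]
          have hh : (G.repl T Bd x x' d0).h v w = G.h v w := if_neg (fun hh => hwT hh.2)
          rw [hA, hz'R v hvT, hz'R w hwT, hh]
        · symm
          refine sum_subset_zero_on_sdiff hBd ?_ ?_
          · intro w hw
            have hwT := (mem_sdiff.1 hw).1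
            have hwB := (mem_sdiff.1 hw).2
            have hA : C' v w = 0 := by simp [C', hvT, hwT, hwB]
            rw [hA, wf.hsymm, (hbd w hwT hwB v hvR).1]
            simp
          · intro w hw
            have hwT := hBd hw
            have hA : C' v w = B v w := by simp [C', hvT, hwT, hw]
            have hh : (G.repl T Bd x x' d0).h v w = G.h v w := if_neg (fun hh => hvT hh.1)
            rw [hA, hz'R v hvT, hz'B w hw, hh]
      rw [h2, hz'R v hvT]
      exact h1

theorem rho_eq_sum {S : Finset ℕ} (hh : ∀ v ∈ S, ∀ w ∈ S, wt a b G v w = 0) :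
    rho a b G S = ∑ v ∈ S, rv a b G v := by
  unfold rho inner
  have : (∑ v ∈ S, ∑ w ∈ S, if v < w then wt a b G v w else 0) = 0 := by
    refine sum_eq_zero fun v hv => sum_eq_zero fun w hw => ?_
    rw [hh v hv w hw]
    split_ifs <;> rfl
  rw [this, sub_zero]

theorem wt_ge (P : Par a b) {v w : ℕ} (h : G.h v w + G.m v w ≠ 0) : (a : ℤ) ≤ wt a b G v w := by
  unfold wt
  have hU := P.hU
  have ha0 : (0 : ℤ) ≤ a := Int.natCast_nonneg _
  have hb0 : (0 : ℤ) ≤ b := Int.natCast_nonneg _
  have h1 : (0 : ℤ) ≤ G.h v w := Int.natCast_nonneg _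
  have h2 : (0 : ℤ) ≤ G.m v w := Int.natCast_nonneg _
  by_cases h0 : G.h v w = 0
  · have h3 : (1 : ℤ) ≤ G.m v w := by
      have : 1 ≤ G.m v w := by omega
      exact_mod_cast this
    rw [h0]
    push_cast
    nlinarith
  · have h3 : (1 : ℤ) ≤ G.h v w := by exact_mod_cast Nat.one_le_iff_ne_zero.2 h0
    nlinarith [mul_nonneg ha0 h2]

/-- Potential of sets of boundary vertices in the replacement. -/
theorem repl_rho_bd (P : Par a b) {T Bd : Finset ℕ} (hBd : Bd ⊆ T) {x x' : ℕ → Bool}
    (hle : ∀ v ∈ Bd, x v = true → x' v = true)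
    {d0 : ℕ} (hd : x' d0 = true ∧ x d0 = false)
    (wf' : (G.repl T Bd x x' d0).WF a b) {Y : Finset ℕ} (hY : Y ⊆ Bd) :
    0 ≤ rho a b (G.repl T Bd x x' d0) Y ∧
      ((∃ v ∈ Y, x' v = true ∧ x v = false) → (a : ℤ) ≤ rho a b (G.repl T Bd x x' d0) Y) := by
  classical
  have hab := P.hab
  have hb3 := P.hb3
  have hT : ∀ v ∈ Y, v ∈ T := fun v hv => hBd (hY hv)
  -- vertex weights
  have hrv : ∀ v ∈ Y, rv a b (G.repl T Bd x x' d0) v
      = a * (if x' v then 1 else 0) + b * (if x v then 0 else 1) - b := by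
    intro v hv
    show (a : ℤ) * ((if v ∈ T then (if x' v then 1 else 0) else G.t v : ℕ) : ℤ)
      + b * ((if v ∈ T then (if x v then 0 else 1) else G.s v : ℕ) : ℤ) - b = _
    rw [if_pos (hT v hv), if_pos (hT v hv)]
    push_cast
    rfl
  have hrv0 : ∀ v ∈ Y, 0 ≤ rv a b (G.repl T Bd x x' d0) v := by
    intro v hv
    rw [hrv v hv]
    cases hx : x v <;> cases hx' : x' v
    · simp
    · simp
    · have := hle v (hY hv) hx
      rw [hx'] at this
      exact absurd this (by simp)
    · simp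
      linarith
  have hrvD : ∀ v ∈ Y, x' v = true ∧ x v = false →
      rv a b (G.repl T Bd x x' d0) v = a := by
    intro v hv h
    rw [hrv v hv, h.1, h.2]
    simp
  have hwt : ∀ v ∈ Y, ∀ w ∈ Y, v ≠ d0 → w ≠ d0 → wt a b (G.repl T Bd x x' d0) v w = 0 := by
    intro v hv w hw h1 h2
    unfold wt
    have e1 : (G.repl T Bd x x' d0).h v w = 0 := if_pos ⟨hT v hv, hT w hw⟩
    have e2 : (G.repl T Bd x x' d0).m v w = 0 := by
      show (if v ∈ T ∧ w ∈ T then star (fun u => x' u = true ∧ x u = false) d0 v w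
        else G.m v w) = 0
      rw [if_pos ⟨hT v hv, hT w hw⟩]
      unfold star
      rw [if_neg (by tauto)]
    rw [e1, e2]
    simp
  have hwt0 : d0 ∈ Y → ∀ w ∈ Y, w ≠ d0 → wt a b (G.repl T Bd x x' d0) d0 w
      ≤ rv a b (G.repl T Bd x x' d0) w := by
    intro hd0 w hw h2
    by_cases hD : x' w = true ∧ x w = false
    · rw [hrvD w hw hD]
      unfold wt
      have e1 : (G.repl T Bd x x' d0).h d0 w = 0 := if_pos ⟨hT d0 hd0, hT w hw⟩
      have e2 : (G.repl T Bd x x' d0).m d0 w ≤ 1 := by
        show (if d0 ∈ T ∧ w ∈ T then star (fun u => x' u = true ∧ x u = false) d0 d0 w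
          else G.m d0 w) ≤ 1
        rw [if_pos ⟨hT d0 hd0, hT w hw⟩]
        unfold star
        split_ifs <;> omega
      have e3 : ((G.repl T Bd x x' d0).m d0 w : ℤ) ≤ 1 := by exact_mod_cast e2
      rw [e1]
      push_cast
      nlinarith
    · refine le_trans (le_of_eq ?_) (hrv0 w hw)
      unfold wt
      have e1 : (G.repl T Bd x x' d0).h d0 w = 0 := if_pos ⟨hT d0 hd0, hT w hw⟩
      have e2 : (G.repl T Bd x x' d0).m d0 w = 0 := by
        show (if d0 ∈ T ∧ w ∈ T then star (fun u => x' u = true ∧ x u = false) d0 d0 w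
          else G.m d0 w) = 0
        rw [if_pos ⟨hT d0 hd0, hT w hw⟩]
        unfold star
        rw [if_neg]
        rintro (⟨_, _, h⟩ | ⟨h, _⟩)
        · exact hD h
        · exact h2 h
      rw [e1, e2]
      simp
  by_cases hd0 : d0 ∈ Y
  · have key : (a : ℤ) ≤ rho a b (G.repl T Bd x x' d0) Y := by
      rw [← insert_erase hd0, rho_insert wf' (notMem_erase d0 Y)]
      rw [rho_eq_sum (S := Y.erase d0) (fun v hv w hw => hwt v (mem_of_mem_erase hv) w
        (mem_of_mem_erase hw) (ne_of_mem_erase hv) (ne_of_mem_erase hw))]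
      rw [hrvD d0 hd0 hd]
      have : ∑ w ∈ Y.erase d0, wt a b (G.repl T Bd x x' d0) d0 w
          ≤ ∑ w ∈ Y.erase d0, rv a b (G.repl T Bd x x' d0) w :=
        sum_le_sum fun w hw => hwt0 hd0 w (mem_of_mem_erase hw) (ne_of_mem_erase hw)
      linarith
    exact ⟨by linarith, fun _ => key⟩
  · have e : rho a b (G.repl T Bd x x' d0) Y = ∑ v ∈ Y, rv a b (G.repl T Bd x x' d0) v :=
      rho_eq_sum fun v hv w hw => hwt v hv w hw (fun h => hd0 (h ▸ hv)) (fun h => hd0 (h ▸ hw))
    rw [e]
    refine ⟨sum_nonneg hrv0, ?_⟩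
    rintro ⟨v, hv, h⟩
    rw [← hrvD v hv h]
    exact single_le_sum (f := fun v => rv a b (G.repl T Bd x x' d0) v) hrv0 hv

theorem MinCE.repl (M : MinCE a b G) (P : Par a b) {T : Finset ℕ} (hT : T ⊆ G.V)
    (hsm : rho a b G T ≤ a) (hH : ∃ p ∈ T, ∃ q ∈ T, G.h p q ≠ 0)
    {x x' : ℕ → Bool} {A A' : ℕ → ℕ → ℕ} (hx : IsCol (G.res T) x A)
    (hx' : IsCol (G.res T) x' A') (hle : ∀ v ∈ bd G T, x v = true → x' v = true)
    {d0 : ℕ} (hd0 : d0 ∈ bd G T) (hd : x' d0 = true) : x d0 = true := by
  classical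
  by_contra hxd
  have hxd' : x d0 = false := by simpa using hxd
  have hab := P.hab
  have hb3 := P.hb3
  have hbT : bd G T ⊆ T := fun v hv => (mem_bd.1 hv).1
  have hbd : ∀ v ∈ T, v ∉ bd G T → ∀ r ∈ G.V \ T, G.h v r = 0 ∧ G.m v r = 0 := by
    intro v hv hvb r hr
    by_contra hcon
    refine hvb (mem_bd.2 ⟨hv, r, hr, ?_⟩)
    intro h
    exact hcon ⟨by omega, by omega⟩
  refine M.nc (repl_col M.wf hT hbT hbd hx hx' hd0 ?_)
  have wf' : (G.repl T (bd G T) x x' d0).WF a b :=
    repl_wf M.wf (by have := P.ab; have := P.b3; omega) (by have := P.b3; omega) hT hbT x x' d0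
  obtain ⟨Gs, hGs⟩ : ∃ Gs, Gs = G.repl T (bd G T) x x' d0 := ⟨_, rfl⟩
  have hVs : Gs.V = (G.V \ T) ∪ bd G T := by rw [hGs]; rfl
  rw [← hGs]
  rw [← hGs] at wf'
  refine M.ih Gs wf' ?_ ?_
  · intro S hS hSne
    rw [hVs] at hS
    obtain ⟨Y, hYd⟩ : ∃ Y, Y = S ∩ T := ⟨_, rfl⟩
    obtain ⟨Z, hZd⟩ : ∃ Z, Z = S \ T := ⟨_, rfl⟩
    have hSYZ : S = Y ∪ Z := by
      rw [hYd, hZd]
      ext v
      rw [mem_union, mem_inter, mem_sdiff]
      tauto
    have hYB : Y ⊆ bd G T := by
      intro v hv
      rw [hYd, mem_inter] at hv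
      rcases mem_union.1 (hS hv.1) with h | h
      · exact absurd hv.2 (mem_sdiff.1 h).2
      · exact h
    have hZR : Z ⊆ G.V \ T := by
      intro v hv
      rw [hZd, mem_sdiff] at hv
      rcases mem_union.1 (hS hv.1) with h | h
      · exact h
      · exact absurd (hbT h) hv.2
    have hYZ : Disjoint Y Z := disjoint_left.2 fun v hv hvz =>
      (mem_sdiff.1 (hZR hvz)).2 (hbT (hYB hv))
    have hTZ : Disjoint T Z := disjoint_left.2 fun v hv hvz => (mem_sdiff.1 (hZR hvz)).2 hv
    have e1 : rho a b Gs S = rho a b Gs Y + rho a b Gs Z - cross a b Gs Y Z := by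
      rw [hSYZ, rho_union wf' hYZ]
    have e2 : rho a b Gs Z = rho a b G Z := by
      have hZT : ∀ v ∈ Z, v ∉ T := fun v hv => (mem_sdiff.1 (hZR hv)).2
      refine rho_congr ?_ ?_ ?_ ?_
      · intro v hv w _
        rw [hGs]
        exact if_neg (fun h => hZT v hv h.1)
      · intro v hv w _
        rw [hGs]
        exact if_neg (fun h => hZT v hv h.1)
      · intro v hv
        rw [hGs]
        exact if_neg (hZT v hv)
      · intro v hv
        rw [hGs]
        exact if_neg (hZT v hv)
    have e3 : cross a b Gs Y Z = cross a b G Y Z := by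
      have hZT : ∀ v ∈ Z, v ∉ T := fun v hv => (mem_sdiff.1 (hZR hv)).2
      unfold cross
      refine sum_congr rfl fun v hv => sum_congr rfl fun w hw => ?_
      unfold wt
      have h1 : Gs.h v w = G.h v w := by
        rw [hGs]
        exact if_neg (fun h => hZT w hw h.2)
      have h2 : Gs.m v w = G.m v w := by
        rw [hGs]
        exact if_neg (fun h => hZT w hw h.2)
      rw [h1, h2]
    have e4 := rho_union (a := a) (b := b) M.wf hTZ
    have ha1 : 1 ≤ a := by have := P.ab; omega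
    have e5 : cross a b G Y Z ≤ cross a b G T Z := by
      unfold cross
      exact sum_le_sum_of_subset_of_nonneg (hYB.trans hbT)
        fun v _ _ => sum_nonneg fun w _ => wt_nonneg ha1 _ _ _
    have hb := repl_rho_bd P hbT hle ⟨hd, hxd'⟩ (by rw [← hGs]; exact wf') hYB
    rw [← hGs] at hb
    by_cases hZ : Z = ∅
    · rw [hZ] at e1
      rw [rho_empty] at e1
      have : cross a b Gs Y ∅ = 0 := by simp [cross]
      rw [this] at e1
      rw [e1]
      linarith [hb.1]
    · have hZne : Z.Nonempty := nonempty_iff_ne_empty.2 hZ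
      have hTZV : T ∪ Z ⊆ G.V := union_subset hT (hZR.trans sdiff_subset)
      have hTZne : (T ∪ Z).Nonempty := hZne.mono subset_union_right
      have hpos := M.pos _ hTZV hTZne
      by_cases hYD : ∃ v ∈ Y, x' v = true ∧ x v = false
      · have := hb.2 hYD
        linarith
      · obtain ⟨_, r, hr, hadj⟩ := mem_bd.1 hd0
        have hd0Y : d0 ∉ Y := fun h => hYD ⟨d0, h, hd, hxd'⟩
        by_cases hrZ : r ∈ Z
        · have e6 : cross a b G Y Z + a ≤ cross a b G T Z := by
            have h1 : cross a b G (insert d0 Y) Z = (∑ w ∈ Z, wt a b G d0 w)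
                + cross a b G Y Z := by
              unfold cross
              rw [sum_insert hd0Y]
            have h2 : cross a b G (insert d0 Y) Z ≤ cross a b G T Z := by
              unfold cross
              refine sum_le_sum_of_subset_of_nonneg ?_
                fun v _ _ => sum_nonneg fun w _ => wt_nonneg ha1 _ _ _
              exact insert_subset (hbT hd0) (hYB.trans hbT)
            have h3 : wt a b G d0 r ≤ ∑ w ∈ Z, wt a b G d0 w :=
              single_le_sum (f := fun w => wt a b G d0 w) (fun w _ => wt_nonneg ha1 _ _ _) hrZ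
            have h4 := wt_ge P hadj
            linarith
          linarith [hb.1]
        · have h1 := M.p1' P hTZV hTZne (union_ne hr hrZ)
          linarith [hb.1]
  · left
    obtain ⟨p, hp, q, hq, hpq⟩ := hH
    have hVV : Gs.V ⊆ G.V := by
      rw [hVs]
      exact union_subset sdiff_subset (hbT.trans hT)
    have h1 : hc Gs ≤ ∑ v ∈ G.V, ∑ w ∈ G.V, Gs.h v w := by
      unfold hc
      exact (sum_le_sum fun v _ => sum_le_sum_of_subset hVV).trans (sum_le_sum_of_subset hVV)
    refine lt_of_le_of_lt h1 ?_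
    unfold hc
    have h2 : ∀ v w, Gs.h v w ≤ G.h v w := by
      intro v w
      rw [hGs]
      show (if v ∈ T ∧ w ∈ T then 0 else G.h v w) ≤ _
      split_ifs
      · exact Nat.zero_le _
      · exact le_rfl
    refine sum_lt_sum (fun v _ => sum_le_sum fun w _ => h2 v w) ⟨p, hT hp, ?_⟩
    refine sum_lt_sum (fun w _ => h2 p w) ⟨q, hT hq, ?_⟩
    have h3 : Gs.h p q = 0 := by
      rw [hGs]
      exact if_pos ⟨hp, hq⟩
    omega

end

end Pool.Agent.Lib.MP_4006b4_co
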