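import Mathlib
import Pool.Agent.Lib.MP_4006b4_co.End

/-!
# Critical graphs for two-part defective colouring are not sparse

For `d₁ ≥ 2`, `d₂ ≥ d₁ + 2` and `2 d₂ ≥ 3 d₁ + 2` every `(Δ_{d₁}, Δ_{d₂})`-critical graph `G`
satisfies `e(G) ≥ (2 - α) n(G) + 1 / (d₂ + 1)`.
-/

set_option autoImplicit false

open Finset

namespace Pool.Agent.Results.MP_4006b4_co.SparseCriticalBound

universe u

/-- `c` encodes a partition of the vertex set into `V₁` (value `true`) and `V₂` (value `false`);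
it is a `(Δ_{d₁}, Δ_{d₂})`-colouring if every vertex of `V₁` has at most `d₁` neighbours in `V₁`
and every vertex of `V₂` has at most `d₂` neighbours in `V₂`. -/
def IsDefColouring {V : Type u} (d₁ d₂ : ℕ) (G : SimpleGraph V) (c : V → Bool) : Prop :=
  (∀ v, c v = true → {w | G.Adj v w ∧ c w = true}.ncard ≤ d₁) ∧
    (∀ v, c v = false → {w | G.Adj v w ∧ c w = false}.ncard ≤ d₂)

/-- `G` is `(Δ_{d₁}, Δ_{d₂})`-critical: it has no `(Δ_{d₁}, Δ_{d₂})`-colouring but each of its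
proper subgraphs has one. -/
def IsCritical {V : Type u} (d₁ d₂ : ℕ) (G : SimpleGraph V) : Prop :=
  (¬ ∃ c : V → Bool, IsDefColouring d₁ d₂ G c) ∧
    ∀ H : G.Subgraph, H ≠ ⊤ → ∃ c : H.verts → Bool, IsDefColouring d₁ d₂ H.coe c

/-- The number `α = (d₂ + 2) / ((d₁ + 2) (d₂ + 1))`. -/
noncomputable def alpha (d₁ d₂ : ℕ) : ℝ := ((d₂ : ℝ) + 2) / (((d₁ : ℝ) + 2) * ((d₂ : ℝ) + 1))

open Pool.Agent.Lib.MP_4006b4_co

section

variable {V : Type u}

open Classical in
/-- The structure of a graph. -/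
noncomputable def ofGraph [Fintype V] (G : SimpleGraph V) (f : V → ℕ) (d₁ d₂ : ℕ) : Str where
  V := univ.image f
  h := fun i j => if ∃ v w, f v = i ∧ f w = j ∧ G.Adj v w then 1 else 0
  m := fun _ _ => 0
  t := fun _ => d₁ + 1
  s := fun _ => d₂ + 1

variable [Fintype V] {G : SimpleGraph V} {f : V → ℕ} {d₁ d₂ : ℕ}

open Classical in
theorem ofGraph_h (hf : Function.Injective f) (v w : V) :
    (ofGraph G f d₁ d₂).h (f v) (f w) = if G.Adj v w then 1 else 0 := by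
  show (if ∃ v' w', f v' = f v ∧ f w' = f w ∧ G.Adj v' w' then 1 else 0) = _
  by_cases h : G.Adj v w
  · rw [if_pos ⟨v, w, rfl, rfl, h⟩, if_pos h]
  · rw [if_neg, if_neg h]
    rintro ⟨v', w', h1, h2, h3⟩
    rw [hf h1, hf h2] at h3
    exact h h3

theorem ofGraph_wf (hf : Function.Injective f) :
    (ofGraph G f d₁ d₂).WF (d₂ + 2) (d₁ + 2) := by
  classical
  have hs : ∀ i j, (∃ v w, f v = i ∧ f w = j ∧ G.Adj v w) ↔
      (∃ v w, f v = j ∧ f w = i ∧ G.Adj v w) := by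
    intro i j
    constructor <;> rintro ⟨v, w, h1, h2, h3⟩ <;> exact ⟨w, v, h2, h1, h3.symm⟩
  refine ⟨?_, fun _ _ => rfl, ?_, fun _ => rfl, ?_, fun _ _ _ _ _ => le_rfl,
    fun _ _ _ _ _ => le_rfl⟩
  · intro i j
    show (if ∃ v w, f v = i ∧ f w = j ∧ G.Adj v w then 1 else 0)
      = (if ∃ v w, f v = j ∧ f w = i ∧ G.Adj v w then 1 else 0)
    by_cases h : ∃ v w, f v = i ∧ f w = j ∧ G.Adj v w
    · rw [if_pos h, if_pos ((hs i j).1 h)]
    · rw [if_neg h, if_neg (fun hh => h ((hs i j).2 hh))]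
  · intro i
    refine if_neg ?_
    rintro ⟨v, w, h1, h2, h3⟩
    rw [hf (h1.trans h2.symm)] at h3
    exact G.irrefl h3
  · intro i j
    show (if ∃ v w, f v = i ∧ f w = j ∧ G.Adj v w then 1 else 0) ≤ 1
    split_ifs <;> omega

/-- A colouring of the structure gives one of the graph. -/
theorem colour_of_struct (hf : Function.Injective f) (hc : Colorable (ofGraph G f d₁ d₂)) :
    ∃ c : V → Bool, IsDefColouring d₁ d₂ G c := by
  classical
  obtain ⟨x, A, hc⟩ := hc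
  have key : ∀ v, {w | G.Adj v w ∧ x (f w) = x (f v)}.ncard + 1
      ≤ thr (ofGraph G f d₁ d₂) (x (f v)) (f v) := by
    intro v
    have h1 := hc.cap (f v) (mem_image_of_mem _ (mem_univ v))
    refine le_trans (Nat.add_le_add_right ?_ 1) h1
    have h2 : {w | G.Adj v w ∧ x (f w) = x (f v)}
        = ((univ.filter (fun w => G.Adj v w ∧ x (f w) = x (f v)) : Finset V) : Set V) := by
      ext w
      simp
    rw [h2, Set.ncard_coe_finset, card_eq_sum_ones, sum_filter]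
    unfold load
    have h3 : (ofGraph G f d₁ d₂).V = univ.image f := rfl
    rw [h3, sum_image (fun _ _ _ _ h => hf h)]
    refine sum_le_sum fun w _ => ?_
    rw [ofGraph_h hf]
    by_cases h4 : G.Adj v w
    · by_cases h5 : x (f w) = x (f v)
      · rw [if_pos ⟨h4, h5⟩, if_pos h5.symm, if_pos h4]
        exact Nat.le_add_right _ _
      · rw [if_neg (fun h => h5 h.2)]
        exact Nat.zero_le _
    · rw [if_neg (fun h => h4 h.1)]
      exact Nat.zero_le _
  refine ⟨fun v => x (f v), ?_, ?_⟩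
  · intro v hv
    have h1 := key v
    have hv' : x (f v) = true := hv
    rw [hv', thr_true] at h1
    exact Nat.le_of_succ_le_succ h1
  · intro v hv
    have h1 := key v
    have hv' : x (f v) = false := hv
    rw [hv', thr_false] at h1
    exact Nat.le_of_succ_le_succ h1

/-- Proper vertex subsets are colourable in the structure of a critical graph. -/
theorem struct_of_colour (hf : Function.Injective f) (hG : IsCritical d₁ d₂ G) {T : Finset ℕ}
    (hT : T ⊆ (ofGraph G f d₁ d₂).V) (hTV : T ≠ (ofGraph G f d₁ d₂).V) :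
    Colorable ((ofGraph G f d₁ d₂).res T) := by
  classical
  have h3 : (ofGraph G f d₁ d₂).V = univ.image f := rfl
  obtain ⟨c, hc⟩ := hG.2 ((⊤ : G.Subgraph).induce {v | f v ∈ T}) (by
    intro h
    apply hTV
    refine Subset.antisymm hT ?_
    intro i hi
    rw [h3, mem_image] at hi
    obtain ⟨v, _, rfl⟩ := hi
    have h1 : v ∈ ((⊤ : G.Subgraph).induce {v | f v ∈ T}).verts := by
      rw [h]
      exact Set.mem_univ v
    exact h1)
  have hverts : ∀ v, v ∈ ((⊤ : G.Subgraph).induce {v | f v ∈ T}).verts ↔ f v ∈ T :=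
    fun v => Iff.rfl
  let x : ℕ → Bool := fun i => decide (∃ v, ∃ hv : f v ∈ T, f v = i ∧ c ⟨v, hv⟩ = true)
  have hx : ∀ v (hv : f v ∈ T), x (f v) = c ⟨v, hv⟩ := by
    intro v hv
    by_cases h : c ⟨v, hv⟩ = true
    · rw [h]
      exact decide_eq_true ⟨v, hv, rfl, h⟩
    · have h' : c ⟨v, hv⟩ = false := by simpa using h
      rw [h']
      refine decide_eq_false ?_
      rintro ⟨w, hw, h1, h2⟩
      have h4 : w = v := hf h1
      subst h4
      exact h h2
  refine ⟨x, fun _ _ => 0, fun _ _ _ _ _ => Nat.zero_le _, ?_⟩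
  intro i hi
  have hi' : i ∈ T := hi
  obtain ⟨v, _, rfl⟩ := mem_image.1 (hT hi')
  have hTi : T = (univ.filter (fun w => f w ∈ T)).image f := by
    ext j
    rw [mem_image]
    constructor
    · intro hj
      obtain ⟨w, _, rfl⟩ := mem_image.1 (hT hj)
      exact ⟨w, mem_filter.2 ⟨mem_univ _, hj⟩, rfl⟩
    · rintro ⟨w, hw, rfl⟩
      exact (mem_filter.1 hw).2
  have hload : load ((ofGraph G f d₁ d₂).res T) x (fun _ _ => 0) T (f v)
      = {w | ((⊤ : G.Subgraph).induce {v | f v ∈ T}).coe.Adj ⟨v, hi'⟩ w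
        ∧ c w = c ⟨v, hi'⟩}.ncard := by
    have e1 : load ((ofGraph G f d₁ d₂).res T) x (fun _ _ => 0) T (f v)
        = ∑ w ∈ univ.filter (fun w => f w ∈ T),
          (if G.Adj v w ∧ x (f w) = x (f v) then 1 else 0) := by
      unfold load
      conv_lhs => rw [hTi]
      rw [sum_image (fun _ _ _ _ h => hf h)]
      refine sum_congr rfl fun w _ => ?_
      show (if x (f v) = x (f w) then (ofGraph G f d₁ d₂).h (f v) (f w) else 0) + 0 = _
      rw [ofGraph_h hf, add_zero]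
      by_cases h4 : G.Adj v w
      · by_cases h5 : x (f w) = x (f v)
        · rw [if_pos h5.symm, if_pos h4, if_pos ⟨h4, h5⟩]
        · rw [if_neg (fun h => h5 h.symm), if_neg (fun h => h5 h.2)]
      · rw [if_neg h4, ite_self, if_neg (fun h => h4 h.1)]
    rw [e1, ← sum_filter, ← card_eq_sum_ones, ← Set.ncard_coe_finset,
      ← Set.ncard_image_of_injective _ Subtype.val_injective]
    congr 1
    ext w
    simp only [coe_filter, mem_filter, mem_univ, true_and, Set.mem_ofPred_eq, Set.mem_image,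
      Subtype.exists, exists_and_right, exists_eq_right]
    constructor
    · rintro ⟨hw, h4, h5⟩
      refine ⟨hw, ?_, ?_⟩
      · exact ⟨hi', hw, h4⟩
      · rw [← hx w hw, ← hx v hi']
        exact h5
    · rintro ⟨hw, h4, h5⟩
      refine ⟨hw, ?_, ?_⟩
      · exact h4.2.2
      · rw [hx w hw, hx v hi']
        exact h5
  show load ((ofGraph G f d₁ d₂).res T) x (fun _ _ => 0) T (f v) + 1
    ≤ thr (ofGraph G f d₁ d₂) (x (f v)) (f v)
  rw [hload, hx v hi']
  cases hcv : c ⟨v, hi'⟩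
  · have := hc.2 ⟨v, hi'⟩ hcv
    exact Nat.add_le_add_right this 1
  · have := hc.1 ⟨v, hi'⟩ hcv
    exact Nat.add_le_add_right this 1

theorem two_inner {a b : ℕ} {G : Str} (wf : G.WF a b) (S : Finset ℕ) :
    2 * Pool.Agent.Lib.MP_4006b4_co.inner a b G S = ∑ v ∈ S, ∑ w ∈ S, wt a b G v w := by
  unfold Pool.Agent.Lib.MP_4006b4_co.inner
  have h1 : ∑ v ∈ S, ∑ w ∈ S, (if w < v then wt a b G v w else 0)
      = ∑ v ∈ S, ∑ w ∈ S, (if v < w then wt a b G v w else 0) := by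
    rw [sum_comm]
    refine sum_congr rfl fun v _ => sum_congr rfl fun w _ => ?_
    split_ifs
    · exact wt_symm wf _ _
    · rfl
  have h2 : ∑ v ∈ S, ∑ w ∈ S, wt a b G v w
      = ∑ v ∈ S, ∑ w ∈ S, (if v < w then wt a b G v w else 0)
        + ∑ v ∈ S, ∑ w ∈ S, (if w < v then wt a b G v w else 0) := by
    rw [← sum_add_distrib]
    refine sum_congr rfl fun v _ => ?_
    rw [← sum_add_distrib]
    refine sum_congr rfl fun w _ => ?_
    rcases lt_trichotomy v w with h | h | h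
    · rw [if_pos h, if_neg (not_lt.2 h.le), add_zero]
    · subst h
      rw [if_neg (lt_irrefl _), wt_self wf]
      rfl
    · rw [if_pos h, if_neg (not_lt.2 h.le), zero_add]
  rw [h2, h1]
  ring

theorem rho_ofGraph (hf : Function.Injective f) :
    rho (d₂ + 2) (d₁ + 2) (ofGraph G f d₁ d₂) (ofGraph G f d₁ d₂).V
      = (2 * (((d₁ : ℤ) + 2) * (d₂ + 1)) - (d₂ + 2)) * Fintype.card V
        - ((d₁ : ℤ) + 2) * (d₂ + 1) * G.edgeSet.ncard := by
  classical
  have hV : (ofGraph G f d₁ d₂).V = univ.image f := rfl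
  have h1 := two_inner (ofGraph_wf (G := G) (d₁ := d₁) (d₂ := d₂) hf) (ofGraph G f d₁ d₂).V
  have h2 : ∑ v ∈ (ofGraph G f d₁ d₂).V, ∑ w ∈ (ofGraph G f d₁ d₂).V,
      wt (d₂ + 2) (d₁ + 2) (ofGraph G f d₁ d₂) v w
      = ((d₁ : ℤ) + 2) * (d₂ + 1) * (2 * G.edgeSet.ncard) := by
    have h3 : ∑ v : V, G.degree v = 2 * #G.edgeFinset := G.sum_degrees_eq_twice_card_edges
    have h4 : G.edgeSet.ncard = #G.edgeFinset := by
      rw [← SimpleGraph.coe_edgeFinset, Set.ncard_coe_finset]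
    rw [h4]
    have h5 : (2 * (#G.edgeFinset : ℤ)) = ∑ v : V, (G.degree v : ℤ) := by
      exact_mod_cast h3.symm
    rw [h5, hV, sum_image (fun _ _ _ _ h => hf h), mul_sum]
    refine sum_congr rfl fun v _ => ?_
    rw [sum_image (fun _ _ _ _ h => hf h)]
    have h6 : G.degree v = ∑ w : V, if G.Adj v w then 1 else 0 := by
      rw [← SimpleGraph.card_neighborFinset_eq_degree, SimpleGraph.neighborFinset_eq_filter,
        card_eq_sum_ones, sum_filter]
    rw [h6]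
    push_cast
    rw [mul_sum]
    refine sum_congr rfl fun w _ => ?_
    unfold wt
    rw [ofGraph_h hf]
    have : (ofGraph G f d₁ d₂).m (f v) (f w) = 0 := rfl
    rw [this]
    push_cast
    ring
  have h7 : ∑ v ∈ (ofGraph G f d₁ d₂).V, rv (d₂ + 2) (d₁ + 2) (ofGraph G f d₁ d₂) v
      = (2 * (((d₁ : ℤ) + 2) * (d₂ + 1)) - (d₂ + 2)) * Fintype.card V := by
    rw [hV, sum_image (fun _ _ _ _ h => hf h)]
    have h8 : ∀ v : V, rv (d₂ + 2) (d₁ + 2) (ofGraph G f d₁ d₂) (f v)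
        = 2 * (((d₁ : ℤ) + 2) * (d₂ + 1)) - (d₂ + 2) := by
      intro v
      show ((d₂ + 2 : ℕ) : ℤ) * ((d₁ + 1 : ℕ) : ℤ) + ((d₁ + 2 : ℕ) : ℤ) * ((d₂ + 1 : ℕ) : ℤ)
        - ((d₁ + 2 : ℕ) : ℤ) = _
      push_cast
      ring
    rw [sum_congr rfl fun v _ => h8 v, sum_const, card_univ, nsmul_eq_mul]
    ring
  unfold rho
  rw [h7]
  linarith

/-- The potential of a critical graph is at most `-β` (in integral form). -/
theorem rho_critical (hP : Par (d₂ + 2) (d₁ + 2)) (hf : Function.Injective f)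
    (hG : IsCritical d₁ d₂ G) :
    rho (d₂ + 2) (d₁ + 2) (ofGraph G f d₁ d₂) (ofGraph G f d₁ d₂).V
      ≤ -((d₁ + 2 : ℕ) : ℤ) := by
  classical
  obtain ⟨S', hSs⟩ : ∃ S', S' = ofGraph G f d₁ d₂ := ⟨_, rfl⟩
  have wf : S'.WF (d₂ + 2) (d₁ + 2) := by rw [hSs]; exact ofGraph_wf hf
  rw [← hSs]
  have hnc : ¬ Colorable S' := by
    rw [hSs]
    exact fun h => hG.1 (colour_of_struct hf h)
  -- a set of smallest potential
  have hex : ∃ S ⊆ S'.V, S.Nonempty ∧ rho (d₂ + 2) (d₁ + 2) S' S ≤ -((d₁ + 2 : ℕ) : ℤ) := by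
    by_contra hcon
    push Not at hcon
    exact hnc (main hP S' wf (fun S hS hne => by have := hcon S hS hne; omega))
  obtain ⟨S1, hS1, hS1ne, hS1r⟩ := hex
  let Q := S'.V.powerset.filter (fun T => T.Nonempty)
  have hQ : ∀ T, T ∈ Q ↔ T ⊆ S'.V ∧ T.Nonempty := by
    intro T
    simp [Q]
  obtain ⟨T, hTQ, hmin⟩ := exists_min_image Q (fun T => rho (d₂ + 2) (d₁ + 2) S' T)
    ⟨S1, (hQ S1).2 ⟨hS1, hS1ne⟩⟩
  obtain ⟨hT, hTne⟩ := (hQ T).1 hTQ
  have hTr := (hmin S1 ((hQ S1).2 ⟨hS1, hS1ne⟩)).trans hS1r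
  by_cases hTV : T = S'.V
  · rw [← hTV]
    exact hTr
  · exfalso
    obtain ⟨x, A, hc⟩ : Colorable (S'.res T) := by
      subst hSs
      exact struct_of_colour hf hG hT hTV
    have hctr : Colorable (S'.ctr T x) := by
      refine main hP (S'.ctr T x) (ctr_wf wf T x) ?_
      intro S hS hSne
      have hS' : S ⊆ S'.V \ T := hS
      have k1 := ctr_rho wf hT x (S := S) (hS'.trans sdiff_subset)
      have k2 : Disjoint T S := disjoint_left.2 fun v hv hvS => (mem_sdiff.1 (hS' hvS)).2 hv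
      have k3 := rho_union wf k2
      have k4 : (0 : ℤ) ≤ (((d₂ + 2 : ℕ) : ℤ) - ((d₁ + 2 : ℕ) : ℤ)) * (n1 S' x T S : ℤ) := by
        refine mul_nonneg ?_ (Int.natCast_nonneg _)
        have := hP.hab
        linarith
      have k5 := hmin (T ∪ S) ((hQ _).2 ⟨union_subset hT (hS'.trans sdiff_subset),
        hTne.mono subset_union_left⟩)
      have k6 : (3 : ℤ) ≤ ((d₁ + 2 : ℕ) : ℤ) := hP.hb3
      linarith
    obtain ⟨y, B, hy⟩ := hctr
    obtain ⟨x', A', h, _⟩ := comb wf hT hc hy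
    exact hnc ⟨x', A', h⟩

end

/-- **Critical graphs are not sparse.** Let `d₁ ≥ 2`, `d₂ ≥ d₁ + 2` and `2 d₂ ≥ 3 d₁ + 2`. Then
every finite `(Δ_{d₁}, Δ_{d₂})`-critical graph `G` satisfies
`e(G) ≥ (2 - α) n(G) + 1 / (d₂ + 1)`. -/
theorem result : ∀ d₁ d₂ : ℕ, 2 ≤ d₁ → d₁ + 2 ≤ d₂ → 3 * d₁ + 2 ≤ 2 * d₂ →
    ∀ (V : Type u) [Finite V] (G : SimpleGraph V), IsCritical d₁ d₂ G →
      (2 - alpha d₁ d₂) * (Nat.card V : ℝ) + 1 / ((d₂ : ℝ) + 1) ≤ (G.edgeSet.ncard : ℝ) := by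
  intro d₁ d₂ h1 h2 h3 V _ G hG
  classical
  have : Fintype V := Fintype.ofFinite V
  have hP : Par (d₂ + 2) (d₁ + 2) := by
    refine ⟨by omega, by omega, by omega, ?_⟩
    nlinarith
  obtain ⟨f, hf⟩ : ∃ f : V → ℕ, Function.Injective f :=
    ⟨fun v => (Fintype.equivFin V v : ℕ),
      fun v w h => (Fintype.equivFin V).injective (Fin.ext h)⟩
  have key := rho_critical hP hf hG
  rw [rho_ofGraph hf] at key
  have key' : ((2 * (((d₁ : ℝ) + 2) * (d₂ + 1)) - (d₂ + 2)) * (Fintype.card V : ℝ)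
        - ((d₁ : ℝ) + 2) * (d₂ + 1) * (G.edgeSet.ncard : ℝ)) ≤ -((d₁ : ℝ) + 2) := by
    exact_mod_cast key
  rw [Nat.card_eq_fintype_card]
  have hU : (0 : ℝ) < ((d₁ : ℝ) + 2) * (d₂ + 1) := by positivity
  have hb : (0 : ℝ) < (d₁ : ℝ) + 2 := by positivity
  have ha : (0 : ℝ) < (d₂ : ℝ) + 1 := by positivity
  have e1 : (2 - alpha d₁ d₂) * (Fintype.card V : ℝ) + 1 / ((d₂ : ℝ) + 1)
      = ((2 * (((d₁ : ℝ) + 2) * (d₂ + 1)) - (d₂ + 2)) * (Fintype.card V : ℝ) + ((d₁ : ℝ) + 2))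
        / (((d₁ : ℝ) + 2) * (d₂ + 1)) := by
    unfold alpha
    field_simp
  rw [e1, div_le_iff₀ hU]
  linarith

end Pool.Agent.Results.MP_4006b4_co.SparseCriticalBound
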